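import Mathlib

/-!
# Topswaps (MP_e0d98f_co): definitions and elementary facts

A deck is a permutation `p` of `ℕ`; `p i` is the card at the position `i` (the top is the position `0`), cards and positions are
numbered from `0`, so that the card `c` on the top turns the upper `c + 1` cards. A deck of `n` cards is a permutation which
fixes all `i ≥ n`.
-/

set_option autoImplicit false

namespace Pool.Agent.H43.TS

open Equiv

/-- reversal of the positions `0, ..., k` -/
def rv (k : ℕ) : Perm ℕ :=
  ⟨fun i => if i ≤ k then k - i else i, fun i => if i ≤ k then k - i else i,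
    fun i => by
      by_cases h : i ≤ k
      · simp only [if_pos h, if_pos (Nat.sub_le k i)]
        omega
      · simp only [if_neg h],
    fun i => by
      by_cases h : i ≤ k
      · simp only [if_pos h, if_pos (Nat.sub_le k i)]
        omega
      · simp only [if_neg h]⟩

/-- one step: if the card `k` is on the top, the upper `k + 1` cards are reversed (nothing happens for `k = 0`) -/
def step (p : Perm ℕ) : Perm ℕ := p * rv (p 0)

/-- a deck of the cards `0, ..., n - 1` -/
def Deck (n : ℕ) (p : Perm ℕ) : Prop := ∀ i, n ≤ i → p i = i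

/-- the number of steps until the card `0` is on the top -/
noncomputable def s (p : Perm ℕ) : ℕ := sInf {t | (step^[t] p) 0 = 0}

/-- the greatest number of steps for a deck of `n` cards -/
noncomputable def S (n : ℕ) : ℕ := sSup {t | ∃ p, Deck n p ∧ s p = t}

/-- the maximum permutations -/
def Mx (n : ℕ) : Set (Perm ℕ) := {p | Deck n p ∧ s p = S n}

/-- the cards which never get to the top -/
def never (n : ℕ) (p : Perm ℕ) : Set ℕ := {c | c < n ∧ ∀ t, (step^[t] p) 0 ≠ c}

theorem rv_apply (k i : ℕ) : rv k i = if i ≤ k then k - i else i := rfl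

theorem rv_zero (k : ℕ) : rv k 0 = k := by
  rw [rv_apply, if_pos (Nat.zero_le _), Nat.sub_zero]

theorem rv_self (k : ℕ) : rv k k = 0 := by
  rw [rv_apply, if_pos le_rfl, Nat.sub_self]

theorem rv_gt {k i : ℕ} (h : k < i) : rv k i = i := by
  rw [rv_apply, if_neg (by omega)]

theorem rv_mul (k : ℕ) : rv k * rv k = 1 := by
  ext i
  rw [Perm.mul_apply, Perm.one_apply, rv_apply, rv_apply]
  by_cases h : i ≤ k
  · rw [if_pos h, if_pos (Nat.sub_le k i)]
    omega
  · rw [if_neg h, if_neg h]

theorem rv_z : rv 0 = 1 := by
  ext i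
  rw [rv_apply, Perm.one_apply]
  by_cases h : i ≤ 0
  · rw [if_pos h]
    omega
  · rw [if_neg h]

theorem deck_lt {n : ℕ} {p : Perm ℕ} (h : Deck n p) {i : ℕ} (hi : i < n) : p i < n := by
  by_contra h1
  have h2 := h (p i) (by omega)
  have h3 := p.injective h2
  omega

theorem deck_rv {n k : ℕ} {p : Perm ℕ} (h : Deck n p) (hk : k < n) : Deck n (p * rv k) := by
  intro i hi
  rw [Perm.mul_apply, rv_gt (by omega), h i hi]

theorem deck_step {n : ℕ} {p : Perm ℕ} (h : Deck n p) : Deck n (step p) := by
  rcases Nat.eq_zero_or_pos n with hn | hn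
  · intro i hi
    have h1 : p 0 = 0 := h 0 (by omega)
    unfold step
    rw [h1, rv_z, mul_one, h i hi]
  · exact deck_rv h (deck_lt h hn)

theorem deck_iter {n : ℕ} {p : Perm ℕ} (h : Deck n p) (t : ℕ) : Deck n (step^[t] p) := by
  induction t generalizing p with
  | zero => exact h
  | succ t ih => exact ih (deck_step h)

theorem deck_mono {n m : ℕ} (hnm : n ≤ m) {p : Perm ℕ} (h : Deck n p) : Deck m p := fun i hi => h i (by omega)

/-- decks of `n` cards are finite in number -/
theorem deck_finite (n : ℕ) : {p : Perm ℕ | Deck n p}.Finite := by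
  have : Finite {i : ℕ // i < n} := Set.finite_lt_nat n
  have e := Equiv.Perm.subtypeEquivSubtypePerm (fun i : ℕ => i < n)
  have h2 : Finite {f : Perm ℕ // ∀ a, ¬ a < n → f a = a} := Finite.of_equiv _ e
  exact (Set.finite_coe_iff.1 h2).subset fun p hp a ha => hp a (by omega)

end Pool.Agent.H43.TS
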