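import Pool.Agent.H43.TS.Def

/-!
# Topswaps (MP_e0d98f_co): proofs
-/

set_option autoImplicit false

namespace Pool.Agent.H43.TS

open Equiv Finset

/-- the potential: fixed points as binary digits -/
private noncomputable def g (p : Perm ℕ) (i : ℕ) : ℕ := if 1 ≤ i ∧ p i = i then 2 ^ i else 0

private theorem g_le (p : Perm ℕ) (i : ℕ) : g p i ≤ 2 ^ i := by
  unfold g
  split_ifs
  · exact le_rfl
  · exact Nat.zero_le _

private theorem two (k : ℕ) : ∑ i ∈ range k, 2 ^ i < 2 ^ k := by
  induction k with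
  | zero => simp
  | succ k ih =>
    rw [sum_range_succ, pow_succ]
    omega

private theorem sum_lt (p : Perm ℕ) (k : ℕ) : ∑ i ∈ range k, g p i < 2 ^ k :=
  (sum_le_sum fun i _ => g_le p i).trans_lt (two k)

private theorem pot {n : ℕ} {p : Perm ℕ} (h : Deck n p) (h0 : p 0 ≠ 0) :
    ∑ i ∈ range n, g p i < ∑ i ∈ range n, g (step p) i := by
  have hn : 0 < n := by
    by_contra hn
    exact h0 (h 0 (by omega))
  obtain ⟨k, hk⟩ : ∃ k, k = p 0 := ⟨_, rfl⟩
  have hkn : k < n := by
    rw [hk]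
    exact deck_lt h hn
  have hk0 : k ≠ 0 := by
    rw [hk]
    exact h0
  have hs : step p = p * rv k := by
    unfold step
    rw [hk]
  have hspl : ∀ q : Perm ℕ, ∑ i ∈ range n, g q i = ∑ i ∈ range k, g q i + g q k + ∑ i ∈ Ico (k + 1) n, g q i := by
    intro q
    rw [range_eq_Ico, ← sum_Ico_consecutive (fun i => g q i) (Nat.zero_le (k + 1)) (by omega : k + 1 ≤ n), ← range_eq_Ico,
      sum_range_succ]
  rw [hspl, hspl]
  have h1 : ∑ i ∈ Ico (k + 1) n, g (step p) i = ∑ i ∈ Ico (k + 1) n, g p i := by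
    refine sum_congr rfl fun i hi => ?_
    rw [mem_Ico] at hi
    unfold g
    rw [hs, Perm.mul_apply, rv_gt (by omega)]
  have h2 : g (step p) k = 2 ^ k := by
    unfold g
    rw [hs, Perm.mul_apply, rv_self, ← hk, if_pos ⟨by omega, rfl⟩]
  have h3 : g p k = 0 := by
    unfold g
    rw [if_neg]
    rintro ⟨-, h4⟩
    have h5 : p k = p 0 := h4.trans hk
    exact hk0 (p.injective h5)
  rw [h1, h2, h3]
  have h6 := sum_lt p k
  omega

/-- the game ends -/
theorem ends {n : ℕ} {p : Perm ℕ} (h : Deck n p) : ∃ t, (step^[t] p) 0 = 0 := by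
  obtain ⟨m, hm⟩ : ∃ m, m = 2 ^ n - ∑ i ∈ range n, g p i := ⟨_, rfl⟩
  induction m using Nat.strong_induction_on generalizing p with
  | _ m ih =>
    by_cases h0 : p 0 = 0
    · exact ⟨0, h0⟩
    · have h1 := pot h h0
      have h2 := sum_lt (step p) n
      obtain ⟨t, ht⟩ := ih (2 ^ n - ∑ i ∈ range n, g (step p) i) (by omega) (deck_step h) rfl
      exact ⟨t + 1, ht⟩

theorem s_spec {n : ℕ} {p : Perm ℕ} (h : Deck n p) : (step^[s p] p) 0 = 0 := Nat.sInf_mem (ends h)

theorem s_lt {p : Perm ℕ} {t : ℕ} (h : t < s p) : (step^[t] p) 0 ≠ 0 := fun h1 => Nat.notMem_of_lt_sInf h h1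

theorem s_le {p : Perm ℕ} {t : ℕ} (h : (step^[t] p) 0 = 0) : s p ≤ t := Nat.sInf_le h

theorem step_def (p : Perm ℕ) : step p = p * rv (p 0) := rfl

theorem step_fix {p : Perm ℕ} (h : p 0 = 0) : step p = p := by
  unfold step
  rw [h, rv_z, mul_one]

theorem iter_fix {p : Perm ℕ} (h : p 0 = 0) (t : ℕ) : step^[t] p = p := by
  induction t with
  | zero => rfl
  | succ t ih => rw [Function.iterate_succ_apply, step_fix h, ih]

/-- after the end the card `0` stays on the top -/
theorem after {n : ℕ} {p : Perm ℕ} (h : Deck n p) {t : ℕ} (ht : s p ≤ t) : (step^[t] p) 0 = 0 := by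
  obtain ⟨r, rfl⟩ : ∃ r, t = r + s p := ⟨t - s p, by omega⟩
  rw [Function.iterate_add_apply, iter_fix (s_spec h), s_spec h]

theorem s_step {n : ℕ} {p : Perm ℕ} (h : Deck n p) (h0 : p 0 ≠ 0) : s p = s (step p) + 1 := by
  refine le_antisymm (s_le (s_spec (deck_step h))) ?_
  have h1 : s p ≠ 0 := fun h1 => by
    have h2 := s_spec h
    rw [h1] at h2
    exact h0 h2
  obtain ⟨r, hr⟩ := Nat.exists_eq_succ_of_ne_zero h1
  have h2 := s_spec h
  rw [hr, Function.iterate_succ_apply] at h2
  have h3 := s_le h2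
  omega

theorem bdd (n : ℕ) : BddAbove {t | ∃ p, Deck n p ∧ s p = t} := by
  have h1 : {t | ∃ p, Deck n p ∧ s p = t} = s '' {p | Deck n p} := rfl
  rw [h1]
  exact ((deck_finite n).image s).bddAbove

theorem le_S {n : ℕ} {p : Perm ℕ} (h : Deck n p) : s p ≤ S n := le_csSup (bdd n) ⟨p, h, rfl⟩

theorem exists_max (n : ℕ) : (Mx n).Nonempty := by
  obtain ⟨p, h1, h2⟩ := Nat.sSup_mem (s := {t | ∃ p, Deck n p ∧ s p = t}) ⟨s 1, 1, fun i _ => rfl, rfl⟩ (bdd n)
  exact ⟨p, h1, h2⟩

/-- exchange of the card `0` and a card which never gets to the top -/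
theorem swap_iter {m : ℕ} {p : Perm ℕ} (hm : ∀ t, (step^[t] p) 0 ≠ m) {t : ℕ} (ht : t ≤ s p) :
    step^[t] (swap 0 m * p) = swap 0 m * step^[t] p := by
  induction t with
  | zero => rfl
  | succ t ih =>
    rw [Function.iterate_succ_apply', Function.iterate_succ_apply', ih (by omega), step_def (swap 0 m * step^[t] p),
      step_def (step^[t] p), Perm.mul_apply, swap_apply_of_ne_of_ne (s_lt (by omega)) (hm t), mul_assoc]

theorem swap_deck {n m : ℕ} {p : Perm ℕ} (h : Deck n p) (hm : m < n) : Deck n (swap 0 m * p) := by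
  intro i hi
  rw [Perm.mul_apply, h i hi, swap_apply_of_ne_of_ne (by omega) (by omega)]

theorem swap_s {n m : ℕ} {p : Perm ℕ} (h : Deck n p) (hm : m < n) (hm1 : ∀ t, (step^[t] p) 0 ≠ m) :
    s p < s (swap 0 m * p) := by
  by_contra h1
  have h2 := s_spec (swap_deck h hm)
  rw [swap_iter hm1 (by omega : s (swap 0 m * p) ≤ s p), Perm.mul_apply] at h2
  have hm0 : m ≠ 0 := fun h3 => hm1 (s p) (by rw [s_spec h, h3])
  have h4 : (step^[s (swap 0 m * p)] p) 0 = m := by
    have h5 := congrArg (swap 0 m) h2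
    rw [swap_apply_self] at h5
    rw [h5, swap_apply_left]
  exact hm1 _ h4

theorem never_fin (n : ℕ) (p : Perm ℕ) : (never n p).Finite := (Set.finite_lt_nat n).subset fun _ h => h.1

/-- steps and cards which never get to the top -/
theorem count {n : ℕ} {p : Perm ℕ} (h : Deck n p) : s p + (never n p).ncard ≤ S n := by
  obtain ⟨m, hm⟩ : ∃ m, m = S n - s p := ⟨_, rfl⟩
  induction m using Nat.strong_induction_on generalizing p with
  | _ m ih =>
    rcases (never n p).eq_empty_or_nonempty with h0 | ⟨c, hc⟩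
    · rw [h0, Set.ncard_empty]
      exact le_S h
    · have h1 := swap_s h hc.1 hc.2
      have hd := swap_deck h hc.1
      have h2 := le_S hd
      have h3 := ih (S n - s (swap 0 c * p)) (by omega) hd rfl
      have h4 : never n p ⊆ never n (swap 0 c * p) ∪
          (fun t => (step^[t] (swap 0 c * p)) 0) '' (Ico (s p) (s (swap 0 c * p)) : Finset ℕ) := by
        intro x hx
        have hx0 : x ≠ 0 := fun h5 => hx.2 (s p) (by rw [s_spec h, h5])
        by_cases h5 : ∀ t, (step^[t] (swap 0 c * p)) 0 ≠ x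
        · exact Or.inl ⟨hx.1, h5⟩
        · push Not at h5
          obtain ⟨t, ht⟩ := h5
          refine Or.inr ⟨t, ?_, ht⟩
          rw [coe_Ico, Set.mem_Ico]
          constructor
          · by_contra h6
            rw [swap_iter hc.2 (by omega : t ≤ s p), Perm.mul_apply,
              swap_apply_of_ne_of_ne (s_lt (by omega)) (hc.2 t)] at ht
            exact hx.2 t ht
          · by_contra h6
            rw [after hd (by omega)] at ht
            exact hx0 ht.symm
      have h5 := Set.ncard_le_ncard h4 ((never_fin n _).union ((finite_toSet _).image _))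
      have h6 := Set.ncard_union_le (never n (swap 0 c * p))
        ((fun t => (step^[t] (swap 0 c * p)) 0) '' (Ico (s p) (s (swap 0 c * p)) : Finset ℕ))
      have h7 : ((fun t => (step^[t] (swap 0 c * p)) 0) '' (Ico (s p) (s (swap 0 c * p)) : Finset ℕ)).ncard ≤
          s (swap 0 c * p) - s p := by
        refine (Set.ncard_image_le (finite_toSet _)).trans ?_
        rw [Set.ncard_coe_finset, Nat.card_Ico]
      omega

/-- a fixed point gives a predecessor -/
theorem pred {n i : ℕ} {p : Perm ℕ} (h : Deck n p) (hi : i < n) (h0 : i ≠ 0) (hp : p i = i) :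
    Deck n (p * rv i) ∧ s (p * rv i) = s p + 1 := by
  have hd : Deck n (p * rv i) := deck_rv h hi
  have h1 : (p * rv i) 0 = i := by rw [Perm.mul_apply, rv_zero, hp]
  refine ⟨hd, ?_⟩
  rw [s_step hd (by rw [h1]; exact h0)]
  congr 2
  unfold step
  rw [h1, mul_assoc, rv_mul, mul_one]

theorem one_le_S {n : ℕ} (hn : 2 ≤ n) : 1 ≤ S n := by
  have h1 := pred (n := n) (i := 1) (p := 1) (fun i _ => rfl) (by omega) one_ne_zero rfl
  have h2 := le_S h1.1
  omega

theorem no_fix {n : ℕ} (hn : 2 ≤ n) {p : Perm ℕ} (hp : p ∈ Mx n) {i : ℕ} (hi : i < n) : p i ≠ i := by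
  intro h
  rcases Nat.eq_zero_or_pos i with h0 | h0
  · subst h0
    have h1 : s p ≤ 0 := s_le (t := 0) h
    have h2 := one_le_S hn
    have h3 := hp.2
    omega
  · have h1 := pred hp.1 hi (by omega) h
    have h2 := le_S h1.1
    have h3 := hp.2
    omega

theorem S_succ {n : ℕ} (hn : 1 ≤ n) : S n + 1 ≤ S (n + 1) := by
  obtain ⟨p, hp⟩ := exists_max n
  have h1 := pred (deck_mono (by omega : n ≤ n + 1) hp.1) (by omega : n < n + 1) (by omega) (hp.1 n le_rfl)
  have h2 := le_S h1.1
  have h3 := hp.2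
  omega

theorem Mx_fin (n : ℕ) : (Mx n).Finite := (deck_finite n).subset fun _ h => h.1

/-- the decks of `n` cards with exactly `v` steps -/
def Ct (n v : ℕ) : Set (Perm ℕ) := {p | Deck n p ∧ s p = v}

theorem Ct_fin (n v : ℕ) : (Ct n v).Finite := (deck_finite n).subset fun _ h => h.1

theorem swap_exact {n : ℕ} (hn : 0 < n) {p : Perm ℕ} (h : Deck n p) : s (swap 0 n * p) = s p + 1 := by
  have hd := deck_mono (by omega : n ≤ n + 1) h
  have h1 : ∀ t, (step^[t] p) 0 ≠ n := fun t => by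
    have h2 := deck_lt (deck_iter h t) hn
    omega
  have h2 := swap_s hd (by omega : n < n + 1) h1
  refine le_antisymm (s_le ?_) h2
  rw [Function.iterate_succ_apply', swap_iter h1 le_rfl, step_def (swap 0 n * step^[s p] p), Perm.mul_apply, Perm.mul_apply,
    Perm.mul_apply, s_spec h, swap_apply_left, rv_zero, deck_iter h (s p) n le_rfl, swap_apply_right]

theorem double {n v : ℕ} (hv : 1 ≤ v) : 2 * (Ct n v).ncard ≤ (Ct (n + 1) (v + 1)).ncard := by
  rcases Nat.eq_zero_or_pos n with hn | hn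
  · have h1 : Ct n v = ∅ := by
      rw [Set.eq_empty_iff_forall_notMem]
      rintro p ⟨hp, hs⟩
      have h2 : s p ≤ 0 := s_le (t := 0) (hp 0 (by omega))
      omega
    rw [h1, Set.ncard_empty]
    exact Nat.zero_le _
  have hf : (fun p : Perm ℕ => p * rv n) '' Ct n v ⊆ Ct (n + 1) (v + 1) := by
    rintro _ ⟨p, hp, rfl⟩
    have h1 := pred (deck_mono (by omega : n ≤ n + 1) hp.1) (by omega : n < n + 1) (by omega) (hp.1 n le_rfl)
    exact ⟨h1.1, by rw [h1.2, hp.2]⟩
  have hg : (fun p : Perm ℕ => swap 0 n * p) '' Ct n v ⊆ Ct (n + 1) (v + 1) := by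
    rintro _ ⟨p, hp, rfl⟩
    exact ⟨swap_deck (deck_mono (by omega : n ≤ n + 1) hp.1) (by omega : n < n + 1), by rw [swap_exact hn hp.1, hp.2]⟩
  have hdis : Disjoint ((fun p : Perm ℕ => p * rv n) '' Ct n v) ((fun p : Perm ℕ => swap 0 n * p) '' Ct n v) := by
    rw [Set.disjoint_left]
    rintro _ ⟨p, hp, rfl⟩ ⟨q, hq, h1⟩
    have h2 : (swap 0 n * q) 0 = (p * rv n) 0 := by
      have := congrArg (fun f : Perm ℕ => f 0) h1
      exact this
    rw [Perm.mul_apply, Perm.mul_apply, rv_zero, hp.1 n le_rfl] at h2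
    have h3 : q 0 = 0 := by
      have h5 := congrArg (swap 0 n) h2
      rw [swap_apply_self, swap_apply_right] at h5
      exact h5
    have h4 : s q ≤ 0 := s_le (t := 0) h3
    have h5 := hq.2
    omega
  have h1 := Set.ncard_union_eq hdis ((Ct_fin n v).image _) ((Ct_fin n v).image _)
  rw [Set.ncard_image_of_injective _ (mul_left_injective (rv n)),
    Set.ncard_image_of_injective _ (mul_right_injective (swap 0 n))] at h1
  have h2 := Set.ncard_le_ncard (Set.union_subset hf hg) (Ct_fin (n + 1) (v + 1))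
  omega

theorem unique {n : ℕ} (hn : 2 ≤ n) (h : (Ct (n + 1) (S (n + 1))).ncard = 1) : S n + 2 ≤ S (n + 1) := by
  have h1 := S_succ (by omega : 1 ≤ n)
  by_contra h2
  have h3 : S (n + 1) = S n + 1 := by omega
  have h4 := double (n := n) (one_le_S hn)
  have h5 : 0 < (Ct n (S n)).ncard := (Set.ncard_pos (Ct_fin n _)).2 (exists_max n)
  rw [h3] at h
  omega

end Pool.Agent.H43.TS
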